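import Pool.Agent.H317.GI.Stm

set_option autoImplicit false

namespace Pool.Agent.H69.GI

open Matrix Module Pool.Agent.H317.GR Pool.Agent.H317.GH Pool.Agent.H317.GI

theorem pow_form {R : Type} [Ring R] (N : R) (hN : N ^ 3 = 0) (m : ℕ) :
    ∃ c : ℤ, (1 + N) ^ m = 1 + (m : ℤ) • N + c • N ^ 2 := by
  induction m with
  | zero => exact ⟨0, by simp⟩
  | succ m ih =>
    obtain ⟨c, hc⟩ := ih
    refine ⟨c + m, ?_⟩
    rw [pow_succ, hc]
    have h3 : N ^ 2 * N = 0 := by rw [← pow_succ, hN]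
    have h2 : N * N = N ^ 2 := (sq N).symm
    simp only [mul_add, add_mul, mul_one, one_mul, smul_mul_assoc, h3, h2, smul_zero]
    push_cast
    simp only [add_smul, one_smul, add_zero]
    abel

theorem mat_smul_zero (n : ℤ) (hn : n ≠ 0) (A : Matrix (Fin 3) (Fin 3) ℤ) (h : n • A = 0) :
    A = 0 := by
  ext i j
  have := congrFun (congrFun h i) j
  rw [Matrix.smul_apply, smul_eq_mul, Matrix.zero_apply] at this
  rw [Matrix.zero_apply]
  rcases mul_eq_zero.1 this with h | h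
  · exact absurd h hn
  · exact h

theorem tf_nat (z : SZ 3) (hz : (z.val - 1) ^ 3 = 0) (n : ℕ) (hn : n ≠ 0) (h : z ^ n = 1) :
    z = 1 := by
  obtain ⟨c, hc⟩ := pow_form (z.val - 1) hz n
  have h1 : (1 + (z.val - 1)) ^ n = 1 := by
    have h0 : z.val ^ n = 1 := by
      have h00 : (z ^ n).val = (1 : SZ 3).val := congrArg _ h
      exact h00
    rw [add_sub_cancel, h0]
  rw [h1] at hc
  have hn' : (n : ℤ) ≠ 0 := by exact_mod_cast hn
  have h2 : (n : ℤ) • (z.val - 1) + c • (z.val - 1) ^ 2 = 0 := by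
    have h5 : (1 : Matrix (Fin 3) (Fin 3) ℤ) + ((n : ℤ) • (z.val - 1) + c • (z.val - 1) ^ 2) =
        1 + 0 := by rw [← add_assoc, ← hc, add_zero]
    exact add_left_cancel h5
  have h3 : (n : ℤ) • (z.val - 1) ^ 2 = 0 := by
    have h5 : ((n : ℤ) • (z.val - 1) + c • (z.val - 1) ^ 2) * (z.val - 1) = 0 := by
      rw [h2, zero_mul]
    rw [add_mul, smul_mul_assoc, smul_mul_assoc, ← pow_succ, hz, smul_zero, add_zero, ← sq] at h5
    exact h5
  have h4 := mat_smul_zero _ hn' _ h3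
  rw [h4, smul_zero, add_zero] at h2
  have h6 := mat_smul_zero _ hn' _ h2
  have h7 : z.val = (1 : SZ 3).val := sub_eq_zero.1 h6
  exact Subtype.ext h7

theorem tf (z : SZ 3) (hz : (z.val - 1) ^ 3 = 0) (m : ℤ) (hm : m ≠ 0) (h : z ^ m = 1) :
    z = 1 := by
  rcases Int.natAbs_eq m with h1 | h1
  · apply tf_nat z hz m.natAbs (Int.natAbs_ne_zero.2 hm)
    rw [h1, zpow_natCast] at h
    exact h
  · apply tf_nat z hz m.natAbs (Int.natAbs_ne_zero.2 hm)
    rw [h1, _root_.zpow_neg, zpow_natCast, inv_eq_one] at h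
    exact h

/-- upper unitriangular -/
def UT {K : Type} [Field K] (x : Matrix (Fin 3) (Fin 3) K) : Prop :=
  (∀ i j : Fin 3, j < i → x i j = 0) ∧ ∀ i : Fin 3, x i i = 1

theorem comm_central {K : Type} [Field K] (u w c v : Matrix (Fin 3) (Fin 3) K) (hu : UT u)
    (hw : UT w) (hc : UT c) (hv : UT v) (h : c * w * u = u * w) : c * v = v * c := by
  have u10 : u 1 0 = 0 := hu.1 1 0 (by decide)
  have u20 : u 2 0 = 0 := hu.1 2 0 (by decide)
  have u21 : u 2 1 = 0 := hu.1 2 1 (by decide)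
  have w10 : w 1 0 = 0 := hw.1 1 0 (by decide)
  have w20 : w 2 0 = 0 := hw.1 2 0 (by decide)
  have w21 : w 2 1 = 0 := hw.1 2 1 (by decide)
  have c10 : c 1 0 = 0 := hc.1 1 0 (by decide)
  have c20 : c 2 0 = 0 := hc.1 2 0 (by decide)
  have c21 : c 2 1 = 0 := hc.1 2 1 (by decide)
  have v10 : v 1 0 = 0 := hv.1 1 0 (by decide)
  have v20 : v 2 0 = 0 := hv.1 2 0 (by decide)
  have v21 : v 2 1 = 0 := hv.1 2 1 (by decide)
  have u0 := hu.2 0
  have u1 := hu.2 1
  have u2 := hu.2 2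
  have w0 := hw.2 0
  have w1 := hw.2 1
  have w2 := hw.2 2
  have c0 := hc.2 0
  have c1 := hc.2 1
  have c2 := hc.2 2
  have v0 := hv.2 0
  have v1 := hv.2 1
  have v2 := hv.2 2
  have h01 := congrFun (congrFun h 0) 1
  have h12 := congrFun (congrFun h 1) 2
  simp only [Matrix.mul_apply, Fin.sum_univ_three, u10, u20, u21, w10, w20, w21, c10, c20, c21,
    u0, u1, u2, w0, w1, w2, c0, c1, c2, mul_zero, mul_one, one_mul, zero_mul, add_zero,
    zero_add] at h01 h12
  have c01 : c 0 1 = 0 := by linear_combination h01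
  have c12 : c 1 2 = 0 := by linear_combination h12
  ext i j
  fin_cases i <;> fin_cases j <;>
    simp [Matrix.mul_apply, Fin.sum_univ_three, c10, c20, c21, c01, c12, c0, c1, c2, v10, v20,
      v21, v0, v1, v2, add_comm]

theorem std_val (K : Type) [Field K] (g : SZ 3) :
    (std 3 K g).val = (Int.castRingHom K).mapMatrix g.val := rfl

theorem mapM_inj (K : Type) [Field K] [CharZero K] :
    Function.Injective ((Int.castRingHom K).mapMatrix (m := Fin 3)) := by
  intro A B h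
  ext i j
  have := congrFun (congrFun h i) j
  simpa using this

theorem std_inj (K : Type) [Field K] [CharZero K] : Function.Injective (std 3 K) := by
  intro g h e
  apply Subtype.ext
  apply mapM_inj K
  rw [← std_val, ← std_val, e]

theorem uni_iff (K : Type) [Field K] [CharZero K] (g : SZ 3) :
    ((std 3 K g).val - 1) ^ 3 = 0 ↔ (g.val - 1) ^ 3 = 0 := by
  have h : ((std 3 K g).val - 1) ^ 3 = (Int.castRingHom K).mapMatrix ((g.val - 1) ^ 3) := by
    rw [std_val, map_pow, map_sub, map_one]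
  rw [h]
  constructor
  · intro h1
    apply mapM_inj K
    rw [h1, map_zero]
  · intro h1
    rw [h1, map_zero]

theorem exc : S_TRC → S_CUN → S_NRM → S_EXC := by
  intro hTR hCU hNR K _ _ T P htri hva
  by_contra hcon
  obtain ⟨t1, t2, t3⟩ := hTR K P
  -- diagonal entries
  have dmul : ∀ g ∈ T, ∀ h ∈ T, ∀ i : Fin 3, (P⁻¹ * std 3 K (g * h) * P).val i i =
      (P⁻¹ * std 3 K g * P).val i i * (P⁻¹ * std 3 K h * P).val i i := by
    intro g hg h hh i
    rw [map_mul]
    exact t3 _ _ (htri g hg) (htri h hh) i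
  have done : ∀ i : Fin 3, (P⁻¹ * std 3 K 1 * P).val i i = 1 := by
    intro i
    rw [map_one, mul_one, inv_mul_cancel, Units.val_one, Matrix.one_apply_eq]
  have uiff : ∀ g ∈ T, ((g.val - 1) ^ 3 = 0 ↔ ∀ i : Fin 3, (P⁻¹ * std 3 K g * P).val i i = 1) := by
    intro g hg
    rw [← uni_iff K]
    exact t2 _ (htri g hg)
  have ucomm : ∀ g ∈ T, ∀ h ∈ T, ((g * h * g⁻¹ * h⁻¹).val - 1) ^ 3 = 0 := by
    intro g hg h hh
    rw [← uni_iff K, map_mul, map_mul, map_mul, map_inv, map_inv]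
    exact t1 _ _ (htri g hg) (htri h hh)
  -- the conclusion fails
  have hfail : ∀ x ∈ T, ∀ y ∈ T, (x.val - 1) ^ 3 = 0 → (y.val - 1) ^ 3 = 0 → x * y = y * x →
      ∃ a b : ℤ, x ^ a = y ^ b ∧ ¬ (a = 0 ∧ b = 0) := by
    intro x hx y hy ux uy hxy
    by_contra hne
    apply hcon
    refine ⟨x, hx, y, hy, ux, uy, hxy, ?_⟩
    intro a b hab
    by_contra hz
    exact hne ⟨a, b, hab, hz⟩
  -- conjugation
  have Qinj : ∀ g h : SZ 3, P⁻¹ * std 3 K g * P = P⁻¹ * std 3 K h * P → g = h := by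
    intro g h e
    apply std_inj K
    exact mul_left_cancel (mul_right_cancel e)
  have Qmul : ∀ g h : SZ 3, P⁻¹ * std 3 K (g * h) * P =
      (P⁻¹ * std 3 K g * P) * (P⁻¹ * std 3 K h * P) := by
    intro g h
    rw [map_mul]
    group
  have QUT : ∀ g ∈ T, (g.val - 1) ^ 3 = 0 → UT (P⁻¹ * std 3 K g * P).val := by
    intro g hg ug
    exact ⟨htri g hg, (uiff g hg).1 ug⟩
  -- commutators are central
  have hcen : ∀ u ∈ T, ∀ w ∈ T, ∀ v ∈ T, (u.val - 1) ^ 3 = 0 → (w.val - 1) ^ 3 = 0 →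
      (v.val - 1) ^ 3 = 0 → (u * w * u⁻¹ * w⁻¹) * v = v * (u * w * u⁻¹ * w⁻¹) := by
    intro u hu w hw v hv uu uw uv
    have hcT : u * w * u⁻¹ * w⁻¹ ∈ T :=
      T.mul_mem (T.mul_mem (T.mul_mem hu hw) (T.inv_mem hu)) (T.inv_mem hw)
    apply Qinj
    rw [Qmul (u * w * u⁻¹ * w⁻¹) v, Qmul v (u * w * u⁻¹ * w⁻¹)]
    have h0 : (P⁻¹ * std 3 K (u * w * u⁻¹ * w⁻¹) * P) * (P⁻¹ * std 3 K w * P) *
        (P⁻¹ * std 3 K u * P) = (P⁻¹ * std 3 K u * P) * (P⁻¹ * std 3 K w * P) := by
      rw [← Qmul, ← Qmul, ← Qmul]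
      congr 3
      group
    have h1 := congrArg Units.val h0
    have key := comm_central _ _ _ _ (QUT u hu uu) (QUT w hw uw) (QUT _ hcT (ucomm u hu w hw))
      (QUT v hv uv) h1
    exact Units.ext key
  -- the unipotent elements commute
  have habel : ∀ u ∈ T, ∀ w ∈ T, (u.val - 1) ^ 3 = 0 → (w.val - 1) ^ 3 = 0 → u * w = w * u := by
    intro u hu w hw uu uw
    set c := u * w * u⁻¹ * w⁻¹ with hc
    have hcT : c ∈ T := T.mul_mem (T.mul_mem (T.mul_mem hu hw) (T.inv_mem hu)) (T.inv_mem hw)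
    have hcu : ((c.val - 1) ^ 3 = 0) := ucomm u hu w hw
    have hc1 : c = 1 := by
      by_contra hc1
      have c_u : c * u = u * c := hcen u hu w hw u hu uu uw uu
      have c_w : c * w = w * c := hcen u hu w hw w hw uu uw uw
      obtain ⟨a, b, hab, hnz⟩ := hfail u hu c hcT uu hcu c_u.symm
      by_cases ha : a = 0
      · have hb : b ≠ 0 := fun hb => hnz ⟨ha, hb⟩
        rw [ha, zpow_zero] at hab
        exact hc1 (tf c hcu b hb hab.symm)
      · apply hc1
        apply tf c hcu a ha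
        have e1 : w * u * w⁻¹ = c⁻¹ * u := by rw [hc]; group
        have e2 : w * u ^ a * w⁻¹ = (c⁻¹ * u) ^ a := by rw [← e1, conj_zpow]
        have e3 : (c⁻¹ * u) ^ a = c⁻¹ ^ a * u ^ a := by
          have hcm : Commute c u := c_u
          exact (hcm.inv_left).mul_zpow a
        have e4 : w * u ^ a * w⁻¹ = u ^ a := by
          have hcm : Commute c w := c_w
          have h5 : Commute (c ^ b) w := hcm.zpow_left b
          rw [hab, ← h5.eq, mul_inv_cancel_right]
        rw [e4, e3] at e2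
        have e5 : c⁻¹ ^ a = 1 := by
          have h6 : 1 * u ^ a = c⁻¹ ^ a * u ^ a := by rw [one_mul]; exact e2
          exact (mul_right_cancel h6).symm
        rw [_root_.inv_zpow, inv_eq_one] at e5
        exact e5
    have h7 : u * w * u⁻¹ * w⁻¹ = 1 := hc1
    rw [mul_inv_eq_one, mul_inv_eq_iff_eq_mul] at h7
    exact h7
  -- a nontrivial unipotent element
  obtain ⟨z, hzT, hzu, hz1⟩ : ∃ z ∈ T, (z.val - 1) ^ 3 = 0 ∧ z ≠ 1 := by
    by_contra hno
    apply hva T le_rfl (by rw [Subgroup.relIndex_self]; exact one_ne_zero)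
    intro x hx y hy
    have h7 : x * y * x⁻¹ * y⁻¹ = 1 := by
      by_contra h8
      exact hno ⟨_, T.mul_mem (T.mul_mem (T.mul_mem hx hy) (T.inv_mem hx)) (T.inv_mem hy),
        ucomm x hx y hy, h8⟩
    rw [mul_inv_eq_one, mul_inv_eq_iff_eq_mul] at h7
    exact h7
  -- fourth powers are unipotent
  have hfour : ∀ s ∈ T, (((s ^ 2) ^ 2).val - 1) ^ 3 = 0 := by
    intro s hs
    have hszT : s * z * s⁻¹ ∈ T := T.mul_mem (T.mul_mem hs hzT) (T.inv_mem hs)
    have hszu : ((s * z * s⁻¹).val - 1) ^ 3 = 0 := by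
      rw [uiff _ hszT]
      intro i
      rw [dmul _ (T.mul_mem hs hzT) _ (T.inv_mem hs), dmul _ hs _ hzT, (uiff z hzT).1 hzu i,
        mul_one, ← dmul _ hs _ (T.inv_mem hs), mul_inv_cancel, done]
    obtain ⟨a, b, hab, hnz⟩ := hfail _ hszT z hzT hszu hzu (habel _ hszT z hzT hszu hzu)
    have ha : a ≠ 0 := by
      intro ha
      have hb : b ≠ 0 := fun hb => hnz ⟨ha, hb⟩
      rw [ha, zpow_zero] at hab
      exact hz1 (tf z hzu b hb hab.symm)
    have hb : b ≠ 0 := by
      intro hb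
      rw [hb, zpow_zero] at hab
      have h8 := tf _ hszu a ha hab
      apply hz1
      rw [mul_inv_eq_one] at h8
      exact mul_left_cancel (h8.trans (mul_one s).symm)
    have h9 := hNR z s a b hzu ha hb hab
    exact hCU z (s ^ 2) hz1 hzu h9.symm
  -- the characters
  let D : Fin 3 → (T →* K) := fun i =>
    { toFun := fun g => (P⁻¹ * std 3 K g.1 * P).val i i
      map_one' := done i
      map_mul' := fun g h => dmul g.1 g.2 h.1 h.2 i }
  have hD : ∀ (i : Fin 3) (g : T), D i g = (P⁻¹ * std 3 K g.1 * P).val i i := fun i g => rfl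
  have hfin : ∀ i : Fin 3, ((D i).toHomUnits.ker).index ≠ 0 := by
    intro i
    rw [Subgroup.index_ker]
    have hle : (D i).toHomUnits.range ≤ rootsOfUnity 4 K := by
      rintro x ⟨g, rfl⟩
      rw [mem_rootsOfUnity]
      apply Units.ext
      rw [Units.val_pow_eq_pow_val, Units.val_one, MonoidHom.coe_toHomUnits, ← map_pow]
      rw [hD]
      have h10 : ((g ^ 4 : T) : SZ 3) = (g.1 ^ 2) ^ 2 := by
        rw [Subgroup.coe_pow, ← pow_mul]
      rw [h10]
      exact (uiff _ (T.pow_mem (T.pow_mem g.2 2) 2)).1 (hfour g.1 g.2) i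
    have : NeZero (4 : ℕ) := ⟨by norm_num⟩
    have : Finite (rootsOfUnity 4 K) := inferInstance
    have : Finite (D i).toHomUnits.range :=
      Finite.of_injective (Subgroup.inclusion hle) (Subgroup.inclusion_injective hle)
    exact Nat.card_pos.ne'
  -- the subgroup of unipotent elements
  let A : Subgroup (SZ 3) :=
    { carrier := {g | g ∈ T ∧ (g.val - 1) ^ 3 = 0}
      mul_mem' := by
        rintro g h ⟨hg, ug⟩ ⟨hh, uh⟩
        refine ⟨T.mul_mem hg hh, ?_⟩
        rw [uiff _ (T.mul_mem hg hh)]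
        intro i
        rw [dmul _ hg _ hh, (uiff g hg).1 ug i, (uiff h hh).1 uh i, mul_one]
      one_mem' := ⟨T.one_mem, by rw [uiff _ T.one_mem]; exact done⟩
      inv_mem' := by
        rintro g ⟨hg, ug⟩
        refine ⟨T.inv_mem hg, ?_⟩
        rw [uiff _ (T.inv_mem hg)]
        intro i
        have h11 := dmul _ hg _ (T.inv_mem hg) i
        rw [mul_inv_cancel, done, (uiff g hg).1 ug i, one_mul] at h11
        exact h11.symm }
  apply hva A (fun g hg => hg.1)
  · rw [Subgroup.relIndex]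
    have hle : (⨅ i, (D i).toHomUnits.ker) ≤ A.subgroupOf T := by
      intro g hg
      rw [Subgroup.mem_subgroupOf]
      refine ⟨g.2, ?_⟩
      rw [uiff _ g.2]
      intro i
      have h12 := (Subgroup.mem_iInf.1 hg) i
      rw [MonoidHom.mem_ker] at h12
      have h13 := congrArg Units.val h12
      rw [MonoidHom.coe_toHomUnits, Units.val_one, hD] at h13
      exact h13
    have hfi : (⨅ i, (D i).toHomUnits.ker).index ≠ 0 := Subgroup.index_iInf_ne_zero hfin
    intro h0
    apply hfi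
    have := Subgroup.index_dvd_of_le hle
    rw [h0] at this
    exact Nat.eq_zero_of_zero_dvd this
  · rintro x ⟨hx, ux⟩ y ⟨hy, uy⟩
    exact habel x hx y hy ux uy

end Pool.Agent.H69.GI
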